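import Pool.Agent.PJC.Stmts

/-!
Squad PJC, row AVG: averages.
-/

set_option autoImplicit false

namespace Pool.Agent.PJC.H1

open Pool.Agent.PJC

theorem avg (htig : TigStmt) (hind : IndStmt) (htru : TruStmt) : AvgStmt := by
  intro n s S η d K hn hη hη1 hd0 hd hG hK
  obtain ⟨t1, t2, t3, t4, t5⟩ := htig n s S η d hn hη hη1 hd0 hd hG
  have hn0 : (0 : ℝ) < n := by
    have : 0 < n := by omega
    exact_mod_cast this
  have hK0 : 0 < K := by linarith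
  have hL : 0 < K / n := div_pos hK0 hn0
  have hR := fun a => htru n s.I (s.w a) (s.V a) (s.v a) (K / n) hL (hG.w0 a)
  choose R r1 r2 r3 r4 using hR
  have hW := hG.wt
  -- the average of `T`
  obtain ⟨T, hT⟩ : ∃ T : s.A → ℝ, T = fun a =>
      ∑ i, s.w a i * ∑ j, s.w a j * inner ℝ (s.V a i) (s.v a j) ^ 2 := ⟨_, rfl⟩
  have hTa : ∀ a, T a ≤ (2 + η ^ 4) / n / 2 + s.k a := by
    intro a
    have h1 := hind n s S _ d hG a
    have h2 := t1 a
    rw [hT]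
    show ∑ i, s.w a i * ∑ j, s.w a j * inner ℝ (s.V a i) (s.v a j) ^ 2 ≤ _
    linarith
  have hTE : ∑ a, s.μ a * T a ≤ (1 + 15 * η ^ 2) / n := by
    have h1 : ∑ a, s.μ a * T a ≤ ∑ a, s.μ a * ((2 + η ^ 4) / n / 2 + s.k a) :=
      Finset.sum_le_sum fun a _ => mul_le_mul_of_nonneg_left (hTa a) (hG.mu0 a)
    have h2 : ∑ a, s.μ a * ((2 + η ^ 4) / n / 2 + s.k a) =
        (2 + η ^ 4) / n / 2 + ∑ a, s.μ a * s.k a := by
      simp only [mul_add, Finset.sum_add_distrib]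
      rw [← Finset.sum_mul, hG.mu1, one_mul]
    have h3 : (2 + η ^ 4) / n / 2 + 10 * η ^ 2 / n ≤ (1 + 15 * η ^ 2) / n := by
      have h4 : (2 + η ^ 4) / n / 2 + 10 * η ^ 2 / n = (1 + η ^ 4 / 2 + 10 * η ^ 2) / n := by
        ring
      rw [h4]
      refine div_le_div_of_nonneg_right ?_ hn0.le
      have h5 : η ^ 2 ≤ 1 := by nlinarith
      have h6 : η ^ 4 ≤ η ^ 2 := by nlinarith [sq_nonneg η]
      linarith [sq_nonneg η]
    linarith
  -- the average of `G`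
  obtain ⟨G, hGd⟩ : ∃ G : s.A → s.I → ℝ, G = fun a i =>
      ‖s.V a i - s.v a i‖ * (‖s.V a i‖ + ‖s.v a i‖) := ⟨_, rfl⟩
  have hGE : s.ex G ≤ 9 * η := by
    have h1 := s.ex_cs' hW (fun a i => ‖s.V a i - s.v a i‖) (fun a i => ‖s.V a i‖ + ‖s.v a i‖)
    have h2 : s.ex (fun a i => (‖s.V a i‖ + ‖s.v a i‖) ^ 2) ≤ 4 + 2 * η ^ 2 := by
      have h3 : s.ex (fun a i => (‖s.V a i‖ + ‖s.v a i‖) ^ 2) ≤
          s.ex (fun a i => 2 * ‖s.V a i‖ ^ 2 + 2) := by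
        refine s.ex_mono hW fun a i => ?_
        have h4 := hG.lenV a i
        have h5 := norm_nonneg (s.v a i)
        have h6 : ‖s.v a i‖ ^ 2 ≤ 1 := by nlinarith
        nlinarith [sq_nonneg (‖s.V a i‖ - ‖s.v a i‖)]
      rw [s.ex_add (fun a i => 2 * ‖s.V a i‖ ^ 2) (fun _ _ => 2), s.ex_mul_left,
        s.ex_const hW] at h3
      linarith
    have h3 : √(s.ex fun a i => ‖s.V a i - s.v a i‖ ^ 2) *
        √(s.ex fun a i => (‖s.V a i‖ + ‖s.v a i‖) ^ 2) ≤ 9 * η := by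
      rw [← Real.sqrt_mul (s.ex_nonneg hW fun a i => sq_nonneg _)]
      refine Real.sqrt_le_iff.2 ⟨by positivity, ?_⟩
      have h4 : (s.ex fun a i => ‖s.V a i - s.v a i‖ ^ 2) *
          (s.ex fun a i => (‖s.V a i‖ + ‖s.v a i‖) ^ 2) ≤ (15 * η ^ 2) * (4 + 2 * η ^ 2) :=
        mul_le_mul t4 h2 (s.ex_nonneg hW fun a i => sq_nonneg _) (by positivity)
      refine h4.trans ?_
      have h5 : η ^ 2 ≤ 1 / 10 := by nlinarith
      have h6 : η ^ 2 * η ^ 2 ≤ η ^ 2 * (1 / 10) := mul_le_mul_of_nonneg_left h5 (sq_nonneg η)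
      linarith [sq_nonneg η]
    have h4 : s.ex G ≤ |s.ex G| := le_abs_self _
    rw [hGd] at h4 ⊢
    linarith
  have hGa : s.ex G = ∑ a, s.μ a * ∑ i, s.w a i *
      (‖s.V a i - s.v a i‖ * (‖s.V a i‖ + ‖s.v a i‖)) := by
    rw [hGd]
    rfl
  refine ⟨R, ⟨fun a x => r1 a x, fun a x y => r2 a x y⟩, ?_, ?_⟩
  · have h1 : ∑ a, s.μ a * (∑ i, s.w a i * ‖s.v a i‖ ^ 2 - T a / (K / n) - ∑ i, s.w a i *
        (‖s.V a i - s.v a i‖ * (‖s.V a i‖ + ‖s.v a i‖))) ≤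
        ∑ a, s.μ a * ∑ i, s.w a i * ‖R a (s.v a i)‖ ^ 2 := by
      refine Finset.sum_le_sum fun a _ => mul_le_mul_of_nonneg_left ?_ (hG.mu0 a)
      rw [hT]
      exact r3 a
    have h2 : ∑ a, s.μ a * (∑ i, s.w a i * ‖s.v a i‖ ^ 2 - T a / (K / n) - ∑ i, s.w a i *
        (‖s.V a i - s.v a i‖ * (‖s.V a i‖ + ‖s.v a i‖))) =
        s.ex (fun a i => ‖s.v a i‖ ^ 2) - (∑ a, s.μ a * T a) / (K / n) - s.ex G := by
      rw [hGa]
      unfold Side.ex
      rw [Finset.sum_div, ← Finset.sum_sub_distrib, ← Finset.sum_sub_distrib]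
      refine Finset.sum_congr rfl fun a _ => ?_
      ring
    rw [h2] at h1
    have h3 : (∑ a, s.μ a * T a) / (K / n) ≤ (1 + 15 * η ^ 2) / K := by
      rw [div_le_iff₀ hL]
      refine hTE.trans (le_of_eq ?_)
      field_simp
    have h4 : (1 + 15 * η ^ 2) / K ≤ 2 / K := by
      refine div_le_div_of_nonneg_right ?_ hK0.le
      nlinarith
    have h5 : 15 * η ^ 2 ≤ 15 * η := by nlinarith
    have h6 : s.ex (fun a i => ‖R a (s.v a i)‖ ^ 2) =
        ∑ a, s.μ a * ∑ i, s.w a i * ‖R a (s.v a i)‖ ^ 2 := rfl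
    rw [h6]
    linarith
  · have h1 : ∑ a, s.μ a * ∑ i, s.w a i * ∑ j, s.w a j *
        inner ℝ (R a (s.v a i)) (R a (s.v a j)) ^ 2 ≤
        ∑ a, s.μ a * (T a + K / n * ∑ i, s.w a i *
        (‖s.V a i - s.v a i‖ * (‖s.V a i‖ + ‖s.v a i‖))) := by
      refine Finset.sum_le_sum fun a _ => mul_le_mul_of_nonneg_left ?_ (hG.mu0 a)
      rw [hT]
      exact r4 a
    have h2 : ∑ a, s.μ a * (T a + K / n * ∑ i, s.w a i *
        (‖s.V a i - s.v a i‖ * (‖s.V a i‖ + ‖s.v a i‖))) =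
        ∑ a, s.μ a * T a + K / n * s.ex G := by
      rw [hGa, Finset.mul_sum, ← Finset.sum_add_distrib]
      refine Finset.sum_congr rfl fun a _ => ?_
      ring
    rw [h2] at h1
    have h3 : K / n * s.ex G ≤ K / n * (9 * η) := mul_le_mul_of_nonneg_left hGE hL.le
    have h4 : (n : ℝ) * ((1 + 15 * η ^ 2) / n + K / n * (9 * η)) =
        1 + (15 * η ^ 2 + 9 * K * η) := by
      field_simp
      ring
    rw [← h4]
    exact mul_le_mul_of_nonneg_left (by linarith) hn0.le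

end Pool.Agent.PJC.H1
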